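import Mathlib
import Pool.Agent.Y859.SF.Stm

/-!
# Project SF (helper859): assembly for bounded `t`
-/

set_option autoImplicit false

namespace Pool.Agent.Y814.SF

open Finset Pool.Agent.Y859.SF

lemma prod_le_pow (s : Finset ℕ) (x : ℕ → ℕ) (M : ℕ) (h : ∀ j ∈ s, x j ≤ M) :
    ∏ j ∈ s, x j ≤ M ^ s.card := by
  calc ∏ j ∈ s, x j ≤ ∏ _j ∈ s, M := Finset.prod_le_prod' h
    _ = M ^ s.card := by simp

/-- if no `m - i`, `i < h`, has a square divisor larger than `Z`, then the square part of the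
block is bounded -/
lemma sqb_of (hq : S_SQP) (h Z b m : ℕ) (hbm : b < m) (hth : m - b < h)
    (hno : ¬ ∃ i z : ℕ, i < h ∧ Z < z ∧ z ^ 2 ∣ m - i) :
    Sqb ((max Z 1) ^ h * h ^ (h ^ 2)) b m := by
  have hbs : b + (m - b) = m := by omega
  obtain ⟨f', α', hf', hfα'⟩ : ∃ f' α' : ℕ, Squarefree f' ∧ blk b m = f' * α' ^ 2 := by
    obtain ⟨f, α, hfα, hf⟩ := Nat.sq_mul_squarefree (blk b m)
    refine ⟨f, α, hf, ?_⟩
    rw [← hfα]; ring
  obtain ⟨x, hx, hle⟩ := hq b (m - b) f' α' (by omega) hf' (by rw [hbs]; exact hfα')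
  rw [hbs] at hx hle
  refine ⟨f', α', hf', hfα', hle.trans ?_⟩
  have hxZ : ∀ j ∈ Ioc b m, x j ≤ max Z 1 := by
    intro j hj
    rw [Finset.mem_Ioc] at hj
    by_contra hcon
    push Not at hcon
    apply hno
    refine ⟨m - j, x j, by omega, lt_of_le_of_lt (le_max_left _ _) hcon, ?_⟩
    have h1 : m - (m - j) = j := by omega
    rw [h1]
    exact (hx j (Finset.mem_Ioc.2 hj)).2
  have h1 : ∏ j ∈ Ioc b m, x j ≤ (max Z 1) ^ h := by
    refine (prod_le_pow _ _ _ hxZ).trans ?_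
    rw [Nat.card_Ioc]
    exact Nat.pow_le_pow_right (lt_of_lt_of_le one_pos (le_max_right _ _)) (by omega)
  have h2 : (m - b) ^ ((m - b) ^ 2) ≤ h ^ (h ^ 2) := by
    calc (m - b) ^ ((m - b) ^ 2) ≤ h ^ ((m - b) ^ 2) := Nat.pow_le_pow_left (by omega) _
      _ ≤ h ^ (h ^ 2) := Nat.pow_le_pow_right (by omega) (Nat.pow_le_pow_left (by omega) _)
  exact Nat.mul_le_mul h1 h2

theorem t_5 (hz : S_TYPZ) (hq : S_SQP) (ha : S_5A) (hb : S_5B) (hc : S_5C) : S_5 := by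
  intro h ε hε
  have hε3 : 0 < ε / 3 := by positivity
  obtain ⟨Z, N1, hZ⟩ := hz (ε / 3) h hε3
  set A0 : ℕ := (max Z 1) ^ h * h ^ (h ^ 2) with hA0
  obtain ⟨N2, hA⟩ := ha h A0
  obtain ⟨N3, hB⟩ := hb h A0 (ε / 3) hε3
  obtain ⟨N4, hC⟩ := hc h A0 (ε / 3) hε3
  refine ⟨max (max N1 N2) (max N3 N4), fun N hN => ?_⟩
  have e1 : N1 ≤ N := le_trans (le_trans (le_max_left _ _) (le_max_left _ _)) hN
  have e2 : N2 ≤ N := le_trans (le_trans (le_max_right _ _) (le_max_left _ _)) hN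
  have e3 : N3 ≤ N := le_trans (le_trans (le_max_left _ _) (le_max_right _ _)) hN
  have e4 : N4 ≤ N := le_trans (le_trans (le_max_right _ _) (le_max_right _ _)) hN
  obtain ⟨B1, c1, h1⟩ := hZ N e1
  obtain ⟨B2, c2, h2⟩ := hB N e3
  obtain ⟨B3, c3, h3⟩ := hC N e4
  refine ⟨B1 ∪ B2 ∪ B3, ?_, ?_⟩
  · have hcard : ((B1 ∪ B2 ∪ B3).card : ℝ) ≤ B1.card + B2.card + B3.card := by
      have := (Finset.card_union_le (B1 ∪ B2) B3).trans
        (Nat.add_le_add_right (Finset.card_union_le B1 B2) B3.card)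
      exact_mod_cast this
    linarith
  · rintro m hm1 hm2 ⟨b, y, y', hR, hth, hs4, hne⟩
    rw [Finset.mem_union, Finset.mem_union]
    by_contra hcon
    push Not at hcon
    obtain ⟨⟨hn1, hn2⟩, hn3⟩ := hcon
    have hbm : b < m := hR.2.2.1
    have hno : ¬ ∃ i z : ℕ, i < h ∧ Z < z ∧ z ^ 2 ∣ m - i := fun hh => hn1 (h1 m hm1 hm2 hh)
    have hSqb : Sqb A0 b m := sqb_of hq h Z b m hbm hth hno
    rcases lt_trichotomy (y - y') (m - b) with hlt | heq | hgt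
    · exact hA N m b y y' e2 hm1 hm2 hR hth hlt hSqb
    · apply hn3
      refine h3 m hm1 hm2 ⟨b, y, y', hR, hth, heq.symm, ?_, hSqb⟩
      by_contra hlt2
      apply hne
      omega
    · exact hn2 (h2 m hm1 hm2 ⟨b, y, y', hR, hth, hgt, hs4, hSqb⟩)

end Pool.Agent.Y814.SF
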